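import Pool.Agent.K6.H33.Gen

/-!
# All but finitely many polynomials `x ^ d + c` have at most two rational preperiodic points

Let `d ≡ 4 mod 6` and `d ≥ 10`.  For all but finitely many rational numbers `c` the polynomial
`x ^ d + c` has at most two rational preperiodic points.  The bound is attained for infinitely many
`c`, namely for `c = z - z ^ d`, with the points `z` and `- z`.

Proof.  Two different rational periodic points have, for all `c` together, only finitely many ratios:
their ratio comes from a point of one of finitely many twists of the curve `y ^ 2 = x ^ 6 + 1` over a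
number field (starting library `Pool.Agent.T6.H62.PP` and `Pool.Agent.H437R2.Man`).  If `x`, `y` are
different periodic points with `x = t y`, `f x = t' f y`, `f y = t'' y`, then
`y ^ (d - 1) (t ^ d - 1) = (t' - 1) t''`, and `c = t'' y - y ^ d` takes finitely many values.  So up to
finitely many `c` there is at most one periodic point, which is a fixed point `z`, and the same
finiteness excludes preimages of `- z`.
-/

set_option autoImplicit false

namespace Pool.Agent.Results.MP_c076ed_nt.AtMostTwoPoints

/-- The rational preperiodic points of `x ^ d + c`: those with a finite forward orbit. -/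
def preperiodic (d : ℕ) (c : ℚ) : Set ℚ :=
  {x : ℚ | ∃ m n : ℕ, m < n ∧ (fun x : ℚ => x ^ d + c)^[m] x = (fun x : ℚ => x ^ d + c)^[n] x}

theorem result : ∀ d : ℕ, d % 6 = 4 → 10 ≤ d →
    {c : ℚ | 2 < (preperiodic d c).encard}.Finite ∧
      {c : ℚ | (preperiodic d c).encard = 2}.Infinite := by
  intro d hd6 hd10
  have hde : Even d := ⟨d / 2, by omega⟩
  have h3 : 3 ∣ d - 1 := by omega
  obtain ⟨E, hE, h⟩ := Pool.Agent.K6.H33.Gen.main hde (by omega) h3
  have hfin : {c : ℚ | 2 < (preperiodic d c).encard}.Finite := by
    refine hE.subset fun c hc => ?_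
    by_contra hcE
    have hc' : ((2 + 1 : ℕ) : ℕ∞) ≤ (preperiodic d c).encard := by
      have h1 : (2 : ℕ∞) < (preperiodic d c).encard := hc
      have h2 := Order.add_one_le_of_lt h1
      exact_mod_cast h2
    obtain ⟨t, ht, htc⟩ := Set.exists_subset_encard_eq hc'
    have htf : t.Finite := Set.finite_of_encard_eq_coe htc
    have h1 := h c hcE htf.toFinset (fun x hx => ht (htf.mem_toFinset.1 hx))
    have h2 : t.encard = (htf.toFinset.card : ℕ∞) := htf.encard_eq_coe_toFinset_card
    rw [htc] at h2
    have h4 : 2 + 1 = htf.toFinset.card := by exact_mod_cast h2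
    omega
  refine ⟨hfin, ?_⟩
  have hinf : (Set.range fun n : ℕ => ((n : ℚ) + 2) - ((n : ℚ) + 2) ^ d).Infinite := by
    apply Set.infinite_range_of_injective
    have hanti : StrictAnti fun n : ℕ => ((n : ℚ) + 2) - ((n : ℚ) + 2) ^ d := by
      apply strictAnti_nat_of_succ_lt
      intro n
      push_cast
      obtain ⟨e, rfl⟩ : ∃ e, d = e + 2 := ⟨d - 2, by omega⟩
      set y : ℚ := (n : ℚ) + 2 with hy
      have hy2 : (2 : ℚ) ≤ y := by
        have : (0 : ℚ) ≤ n := by positivity
        linarith
      have h1 : (n : ℚ) + 1 + 2 = y + 1 := by rw [hy]; ring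
      rw [h1]
      have h2 : y ^ e ≤ (y + 1) ^ e := pow_le_pow_left₀ (by linarith) (by linarith) e
      have h3 : 1 ≤ y ^ e := one_le_pow₀ (by linarith)
      have h4 : (y + 1) ^ (e + 2) - y ^ (e + 2) =
          (y + 1) ^ e * (y + 1) ^ 2 - y ^ e * y ^ 2 := by ring
      nlinarith
    exact hanti.injective
  refine (hinf.sdiff hfin).mono ?_
  rintro c ⟨⟨n, rfl⟩, hc⟩
  set y : ℚ := (n : ℚ) + 2 with hy
  have hy0 : 0 < y := by positivity
  simp only [Set.mem_ofPred_eq, not_lt] at hc
  refine le_antisymm hc ?_
  have hfy : y ^ d + (y - y ^ d) = y := by ring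
  have hsub : ({y, -y} : Set ℚ) ⊆ preperiodic d (y - y ^ d) := by
    intro x hx
    rcases hx with rfl | hx
    · exact ⟨0, 1, one_pos, by simp only [Function.iterate_zero, id, Function.iterate_one, hfy]⟩
    · rw [Set.mem_singleton_iff] at hx
      subst hx
      refine ⟨1, 2, by norm_num, ?_⟩
      simp only [Function.iterate_succ, Function.iterate_zero, Function.comp, id, hde.neg_pow, hfy]
  calc (2 : ℕ∞) = ({y, -y} : Set ℚ).encard := by
        rw [Set.encard_pair (by intro h0; linarith)]
    _ ≤ _ := Set.encard_le_encard hsub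

end Pool.Agent.Results.MP_c076ed_nt.AtMostTwoPoints
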