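import Pool.Agent.K6.H33.Tw

/-!
# The polynomials `(A x ^ d + b) / v ^ 3` of all even degrees `d ≥ 6`

Let `d ≥ 6` be even.  There are only finitely many triples of integers `A ≠ 0`, `b`, `v ≥ 1` with
`gcd (A b, v) = 1` and `A` free of `(d - 1)`-th powers such that the polynomial `(A x ^ d + b) / v ^ 3`
has more than two rational preperiodic points.

Proof.  The rational preperiodic points are integers.  Two different periodic points exist only for
`A = ± 1` (a prime divisor of `A` contracts); for `v ≥ 2` the starting library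
(`Pool.Agent.T6.H62.PP`) shows that their ratio lies in a finite set independent of `b`, `v`.  If
`x = t y`, `f x = t' f y`, `f y = t'' y`, then `y ^ (d - 1) / v ^ 3 = (t' - 1) t'' / (t ^ d - 1)` in
lowest terms, which bounds `v`, `y` and `b`.  If there is one periodic point `z`, then the other points
are `- z` and the points which run into `- z`, and `- z` has a preimage only for finitely many triples.
-/

set_option autoImplicit false

namespace Pool.Agent.Results.MP_c076ed_nt.CubicDenominators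

open Pool.Agent.T6.H62.UB

/-- The rational preperiodic points of `(A x ^ d + b) / v ^ 3`: those with a finite forward orbit. -/
def preperiodic (d : ℕ) (A b : ℤ) (v : ℕ) : Set ℚ :=
  {x : ℚ | ∃ m n : ℕ, m < n ∧ (fun x : ℚ => (A * x ^ d + b) / (v : ℚ) ^ 3)^[m] x =
    (fun x : ℚ => (A * x ^ d + b) / (v : ℚ) ^ 3)^[n] x}

theorem result : ∀ d : ℕ, Even d → 6 ≤ d →
    {q : ℤ × ℤ × ℕ | q.1 ≠ 0 ∧ 1 ≤ q.2.2 ∧ IsCoprime (q.1 * q.2.1) (q.2.2 : ℤ) ∧
      (∀ p : ℕ, p.Prime → ¬ (p : ℤ) ^ (d - 1) ∣ q.1) ∧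
      2 < (preperiodic d q.1 q.2.1 q.2.2).encard}.Finite := by
  intro d hde hd
  obtain ⟨N, hN⟩ := Pool.Agent.K6.H33.Tw.bdd hde hd
  refine Set.Finite.subset (Finset.finite_toSet
    (Finset.Icc (-(N : ℤ)) N ×ˢ (Finset.Icc (-(N : ℤ)) N ×ˢ Finset.Icc 0 N))) ?_
  rintro ⟨A, b, v⟩ ⟨hA, hv, hcop, hfree, hcard⟩
  simp only at hA hv hcop hfree hcard
  have hc' : ((2 + 1 : ℕ) : ℕ∞) ≤ (preperiodic d A b v).encard := by
    have h2 := Order.add_one_le_of_lt hcard
    exact_mod_cast h2
  obtain ⟨t, ht, htc⟩ := Set.exists_subset_encard_eq hc'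
  have htf : t.Finite := Set.finite_of_encard_eq_coe htc
  have h2 : t.encard = (htf.toFinset.card : ℕ∞) := htf.encard_eq_coe_toFinset_card
  rw [htc] at h2
  have h4 : 2 + 1 = htf.toFinset.card := by exact_mod_cast h2
  have hAV : IsCoprime A ((v ^ 3 : ℕ) : ℤ) := by
    push_cast; exact (hcop.of_mul_left_left).pow_right
  have hBV : IsCoprime b ((v ^ 3 : ℕ) : ℤ) := by
    push_cast; exact (hcop.of_mul_left_right).pow_right
  obtain ⟨O, φ, hs, -, hc, hev⟩ := exists_sys (d := d) (by omega) hA
    (show 0 < v ^ 3 by positivity) hAV hBV hfree htf.toFinset (by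
      intro x hx
      have h5 := ht (htf.mem_toFinset.1 hx)
      push_cast
      exact h5)
  obtain ⟨h5, h6, h7⟩ := hN A b v O φ hs hA (by omega) hev (by omega)
  rw [Finset.mem_coe, Finset.mem_product, Finset.mem_product, Finset.mem_Icc, Finset.mem_Icc,
    Finset.mem_Icc]
  simp only
  omega

end Pool.Agent.Results.MP_c076ed_nt.CubicDenominators
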