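import Pool.Agent.K6.H33.NegMain

/-!
# Uniform boundedness over `ℚ` for the rational maps `x ^ (-d) + c`, `d ≡ 2 mod 6`, `d ≥ 8`

Let `d ≡ 2 mod 6`, `d ≥ 8`. There is `B` such that for all rational numbers `c` the rational map
`x ^ (-d) + c` of degree `d` has at most `B` preperiodic points in `ℙ¹(ℚ)`, and for all but finitely
many `c` it has at most two. For infinitely many `c` there are exactly two.

Proof. At a prime `p` dividing the denominator of `c` there is one attracting fixed point in `ℚ_p`, and
all the points of a cycle of length at least two have the valuation `-v_p(c) / d`; the differences of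
two such points have valuations congruent to it modulo `d + 1`, which is divisible by three. So the
denominator of `c` is a `d`-th power, and in coprime coordinates `x = q u / w` two different such
periodic points have the property that `(X ^ d - U ^ d) / (X - U)`, `X = u w'`, `U = w u'`, is a cube up
to the primes dividing `d`. The starting library (`Pool.Agent.T6.H62.PP`, which uses the finiteness
theorem of `Pool.Agent.H437R2.Man` for `y ^ 2 = x ^ 6 + 1`) shows that there are only finitely many
quotients of two such points, for all `c` together. Hence cycles of length at least two exist for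
finitely many `c` only. The same lemma shows that two rational fixed points, or a fixed point `z` and a
rational preimage of `- z`, exist for finitely many `c` only. A single map has finitely many rational
preperiodic points by Northcott's theorem.
-/

set_option autoImplicit false

namespace Pool.Agent.Results.MP_c076ed_nt.NegativeExponents

/-- The self-map `x ↦ x ^ (- d) + c` of `ℙ¹(ℚ) = ℚ ∪ {∞}`, where `∞ = none`. -/
def negPow (d : ℕ) (c : ℚ) : Option ℚ → Option ℚ
  | none => some c
  | some x => if x = 0 then none else some ((x ^ d)⁻¹ + c)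

/-- The preperiodic points in `ℙ¹(ℚ)`: the points with a finite forward orbit. -/
def preperiodic (d : ℕ) (c : ℚ) : Set (Option ℚ) :=
  {x | ∃ m n : ℕ, m < n ∧ (negPow d c)^[m] x = (negPow d c)^[n] x}

theorem negPow_eq (d : ℕ) (c : ℚ) : negPow d c = Pool.Agent.K6.H33.Neg.nmap d c := by
  funext x
  cases x <;> rfl

theorem preperiodic_eq (d : ℕ) (c : ℚ) :
    preperiodic d c = {x : Option ℚ | Pool.Agent.K6.H33.Neg.Prep d c x} := by
  unfold preperiodic Pool.Agent.K6.H33.Neg.Prep
  rw [negPow_eq]

theorem result : ∀ d : ℕ, d % 6 = 2 → 8 ≤ d →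
    (∃ B : ℕ, ∀ c : ℚ, (preperiodic d c).encard ≤ B) ∧
      {c : ℚ | 2 < (preperiodic d c).encard}.Finite ∧
      {c : ℚ | (preperiodic d c).encard = 2}.Infinite := by
  intro d hd6 hd8
  have hde : Even d := ⟨d / 2, by omega⟩
  have h3 : 3 ∣ d + 1 := by omega
  have hfin : {c : ℚ | 2 < (preperiodic d c).encard}.Finite := by
    refine (Pool.Agent.K6.H33.Neg.exc_fin hde (by omega) h3).subset fun c hc => ?_
    by_contra hcE
    obtain ⟨z, hz⟩ := Pool.Agent.K6.H33.Neg.two hde (by omega) h3 hcE
    have h2 : preperiodic d c ⊆ {some z, some (-z)} := by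
      rw [preperiodic_eq]
      exact fun x hx => hz x hx
    have h4 := (Set.encard_le_encard h2).trans (Pool.Agent.K6.H33.Neg.pair_le _ _)
    exact absurd hc (not_lt.2 h4)
  refine ⟨?_, hfin, ?_⟩
  · obtain ⟨B, hB⟩ := Pool.Agent.K6.H33.Neg.uniform (d := d) hde (by omega) h3
    exact ⟨B, fun c => by rw [preperiodic_eq]; exact hB c⟩
  have hinf : (Set.range fun n : ℕ => ((n : ℚ) + 2) - (((n : ℚ) + 2) ^ d)⁻¹).Infinite := by
    apply Set.infinite_range_of_injective
    have hmono : StrictMono fun n : ℕ => ((n : ℚ) + 2) - (((n : ℚ) + 2) ^ d)⁻¹ := by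
      apply strictMono_nat_of_lt_succ
      intro n
      push_cast
      set y : ℚ := (n : ℚ) + 2 with hy
      have hy2 : (0 : ℚ) < y := by positivity
      have h1 : (n : ℚ) + 1 + 2 = y + 1 := by rw [hy]; ring
      rw [h1]
      have h2 : ((y + 1) ^ d)⁻¹ ≤ (y ^ d)⁻¹ := by
        apply inv_anti₀ (by positivity)
        exact pow_le_pow_left₀ hy2.le (by linarith) d
      linarith
    exact hmono.injective
  refine (hinf.sdiff hfin).mono ?_
  rintro c ⟨⟨n, rfl⟩, hc⟩
  set y : ℚ := (n : ℚ) + 2 with hy
  have hy0 : 0 < y := by positivity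
  simp only [Set.mem_ofPred_eq, not_lt] at hc
  refine le_antisymm hc ?_
  have hfy : (y ^ d)⁻¹ + (y - (y ^ d)⁻¹) = y := by ring
  have h1 : negPow d (y - (y ^ d)⁻¹) (some y) = some y := by
    simp only [negPow, if_neg hy0.ne', hfy]
  have h2 : negPow d (y - (y ^ d)⁻¹) (some (-y)) = some y := by
    simp only [negPow, if_neg (neg_ne_zero.2 hy0.ne'), hde.neg_pow, hfy]
  have hsub : ({some y, some (-y)} : Set (Option ℚ)) ⊆ preperiodic d (y - (y ^ d)⁻¹) := by
    intro x hx
    rcases hx with rfl | hx
    · exact ⟨0, 1, one_pos, by simp only [Function.iterate_zero, id, Function.iterate_one, h1]⟩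
    · rw [Set.mem_singleton_iff] at hx
      subst hx
      refine ⟨1, 2, by norm_num, ?_⟩
      simp only [Function.iterate_succ, Function.iterate_zero, Function.comp, id, h1, h2]
  calc (2 : ℕ∞) = ({some y, some (-y)} : Set (Option ℚ)).encard := by
        rw [Set.encard_pair (by
          intro h0
          have := Option.some.inj h0
          linarith)]
    _ ≤ _ := Set.encard_le_encard hsub

end Pool.Agent.Results.MP_c076ed_nt.NegativeExponents
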