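import Pool.Agent.K6.H33.Quart

/-!
# The rational preperiodic points of `x ^ 4 + c` are periodic up to sign, for almost all `c`

For all but finitely many rational numbers `c`, every rational preperiodic point `x` of `x ^ 4 + c` is
periodic up to sign: `x` or `- x` is a periodic point.

Proof.  If not, some rational `u` is mapped to `- w` with `w` periodic, and by the starting library
(`Pool.Agent.T6.H62.PP`) the quotient of `u` and of every periodic point `y` which is not the periodic
preimage of `w` lies in a finite set independent of `c`.  Together with the equations of the orbits this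
leaves finitely many possibilities for the point `u` (in one case `w`), and so for `c`.
-/

set_option autoImplicit false

namespace Pool.Agent.Results.MP_c076ed_nt.QuarticTails

/-- The rational number `x` has a finite forward orbit under `x ^ 4 + c`. -/
def Preperiodic (c x : ℚ) : Prop :=
  ∃ m n : ℕ, m < n ∧ (fun x : ℚ => x ^ 4 + c)^[m] x = (fun x : ℚ => x ^ 4 + c)^[n] x

/-- The rational number `x` is a periodic point of `x ^ 4 + c`. -/
def Periodic (c x : ℚ) : Prop := ∃ n : ℕ, 0 < n ∧ (fun x : ℚ => x ^ 4 + c)^[n] x = x

theorem result : {c : ℚ | ∃ x : ℚ, Preperiodic c x ∧ ¬ Periodic c x ∧ ¬ Periodic c (-x)}.Finite := by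
  obtain ⟨E, hE, h⟩ := Pool.Agent.K6.H33.Quart.main (d := 4) (by decide) le_rfl (by norm_num)
  refine hE.subset ?_
  rintro c ⟨x, hx, h1, h2⟩
  by_contra hc
  obtain ⟨n, hn, h3 | h3⟩ := h c hc x hx
  · exact h1 ⟨n, hn, h3⟩
  · exact h2 ⟨n, hn, h3⟩

end Pool.Agent.Results.MP_c076ed_nt.QuarticTails
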